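import Pool.Agent.X185.KS.Lower

/-!
# MP_f4335c_lc: a lower bound of k for the delayed k-server problem

For every `k ≥ 3` (the question asks for `k ≥ 4`) the delayed `k`-server problem in the plane
`ℝ × ℝ` with the sup metric has competitiveness at least `k`, from every initial state.
-/

set_option autoImplicit false

namespace Pool.Agent.Results.MP_f4335c_lc.PlaneLowerBound

open Pool.Agent.X185.KS

theorem result (k : ℕ) (hk : 3 ≤ k) (x₀ : State (ℝ × ℝ) k) (C : ℝ) (hC : Competitive C x₀) :
    (k : ℝ) ≤ C :=
  lower_plane hk x₀ hC

end Pool.Agent.Results.MP_f4335c_lc.PlaneLowerBound
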